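import Pool.Agent.H458.AG.Loc

/-!
# Project AG (owner helper458): a maximal `T`-stable integral lattice contains `π` times its dual

Written by helper71. Proves `S_MAX` of `Pool/Agent/H458/AG/Loc.lean`.
-/

set_option autoImplicit false
set_option linter.all false

open scoped Classical

namespace Pool.Agent.H71.AG458

open Pool.Agent.H458.AG

section

variable {k : Type} [Field k] {v : Valuation k (WithZero (Multiplicative ℤ))} {π : k}

theorem pi_ne {v : Valuation k (WithZero (Multiplicative ℤ))} {π : k}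
    (hπ : v π = WithZero.exp (-1 : ℤ)) : π ≠ 0 := by
  rintro rfl
  rw [map_zero] at hπ
  exact WithZero.exp_ne_zero hπ.symm

theorem vpi_le {v : Valuation k (WithZero (Multiplicative ℤ))} {π : k}
    (hπ : v π = WithZero.exp (-1 : ℤ)) : v π ≤ 1 := by
  rw [hπ, ← WithZero.exp_zero]
  exact WithZero.exp_le_exp.mpr (by norm_num)

theorem vpow_le {v : Valuation k (WithZero (Multiplicative ℤ))} {π : k}
    (hπ : v π = WithZero.exp (-1 : ℤ)) (m : ℕ) : v (π ^ m) ≤ 1 := by
  rw [map_pow]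
  exact pow_le_one₀ zero_le' (vpi_le hπ)

/-- a power of the uniformizer is smaller than a given nonzero element -/
theorem exists_pow_le {v : Valuation k (WithZero (Multiplicative ℤ))} {π : k}
    (hπ : v π = WithZero.exp (-1 : ℤ)) {c : k} (hc : c ≠ 0) : ∃ m : ℕ, v (π ^ m) ≤ v c := by
  have hvc : v c ≠ 0 := (Valuation.ne_zero_iff v).mpr hc
  refine ⟨(-(WithZero.log (v c))).toNat, ?_⟩
  rw [map_pow, hπ, ← WithZero.exp_nsmul]
  rw [← WithZero.exp_log hvc]
  apply WithZero.exp_le_exp.mpr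
  rw [WithZero.exp_log hvc]
  have := Int.self_le_toNat (-(WithZero.log (v c)))
  simp only [nsmul_eq_mul, mul_neg, mul_one]
  linarith

variable {V : Type} [AddCommGroup V] [Module k V]

/-- finite sums in a module over the integers -/
theorem sum_mem {v : Valuation k (WithZero (Multiplicative ℤ))} {M : Set V} (hM : Sub v M)
    {ι : Type} (s : Finset ι) (f : ι → V) (hf : ∀ i ∈ s, f i ∈ M) : ∑ i ∈ s, f i ∈ M := by
  induction s using Finset.induction_on with
  | empty => simpa using hM.zero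
  | insert a s ha ih =>
    rw [Finset.sum_insert ha]
    exact hM.add _ (hf a (Finset.mem_insert_self a s)) _
      (ih fun i hi => hf i (Finset.mem_insert_of_mem hi))

/-- the dual is contained in `π ^ (-m) M` for some `m` -/
theorem exists_pow_dual [FiniteDimensional k V] {v : Valuation k (WithZero (Multiplicative ℤ))} {π : k}
    (hπ : v π = WithZero.exp (-1 : ℤ)) (B : LinearMap.BilinForm k V)
    (hnd : ∀ x, (∀ y, B x y = 0) → x = 0) {M : Set V} (hM : Sub v M) :
    ∃ m : ℕ, ∀ z, (∀ y ∈ M, v (B z y) ≤ 1) → π ^ m • z ∈ M := by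
  set n := Module.finrank k V with hn
  let b := Module.finBasis k V
  choose a ha0 haM using fun i => hM.span (b i)
  -- the map to the coordinates
  let Φ : V →ₗ[k] (Fin n → k) := LinearMap.pi fun i => B.flip (a i • b i)
  have hΦ : ∀ z i, Φ z i = B z (a i • b i) := fun z i => rfl
  have hinj : Function.Injective Φ := by
    rw [← LinearMap.ker_eq_bot, LinearMap.ker_eq_bot']
    intro z hz
    apply hnd
    intro y
    have h1 : ∀ i, B z (b i) = 0 := by
      intro i
      have h2 : Φ z i = 0 := by rw [hz]; rfl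
      rw [hΦ, map_smul, smul_eq_mul] at h2
      exact (mul_eq_zero.mp h2).resolve_left (ha0 i)
    have h3 : B z = 0 := b.ext fun i => by rw [h1 i]; rfl
    rw [h3]; rfl
  let e : V ≃ₗ[k] (Fin n → k) := LinearMap.linearEquivOfInjective Φ hinj (by
    rw [Module.finrank_fin_fun])
  have he : ∀ z, e z = Φ z := fun z => rfl
  choose c hc0 hcM using fun j : Fin n => hM.span (e.symm (Pi.single j 1))
  choose m hm using fun j : Fin n => exists_pow_le hπ (hc0 j)
  refine ⟨∑ j, m j, fun z hz => ?_⟩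
  have hz2 : z = ∑ j, (Φ z j) • e.symm (Pi.single j 1) := by
    apply e.injective
    rw [map_sum]
    simp only [map_smul, LinearEquiv.apply_symm_apply]
    rw [he]
    funext i
    rw [Finset.sum_apply]
    simp [Pi.single_apply]
  have hz3 : π ^ (∑ j, m j) • z
      = ∑ j, (π ^ (∑ j, m j) * Φ z j * (c j)⁻¹) • (c j • e.symm (Pi.single j 1)) := by
    conv_lhs => rw [hz2]
    rw [Finset.smul_sum]
    apply Finset.sum_congr rfl
    intro j _
    rw [smul_smul, smul_smul, inv_mul_cancel_right₀ (hc0 j)]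
  rw [hz3]
  apply sum_mem hM
  intro j _
  apply hM.smul _ _ _ (hcM j)
  rw [map_mul, map_mul, map_inv₀]
  have h1 : v (Φ z j) ≤ 1 := by
    rw [hΦ]
    exact hz _ (haM j)
  have h2 : v (π ^ (∑ j, m j)) ≤ v (c j) := by
    refine le_trans ?_ (hm j)
    rw [map_pow, map_pow]
    exact pow_le_pow_right_of_le_one' (vpi_le hπ)
      (Finset.single_le_sum (fun i _ => Nat.zero_le (m i)) (Finset.mem_univ j))
  have hvc : v (c j) ≠ 0 := (Valuation.ne_zero_iff v).mpr (hc0 j)
  calc v (π ^ (∑ j, m j)) * v (Φ z j) * (v (c j))⁻¹ ≤ v (c j) * 1 * (v (c j))⁻¹ := by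
        gcongr
    _ = 1 := by rw [mul_one, mul_inv_cancel₀ hvc]

/-- the enlargement of `M` by a multiple of the dual -/
def Enl (v : Valuation k (WithZero (Multiplicative ℤ))) (B : LinearMap.BilinForm k V) (M : Set V)
    (c : k) : Set V :=
  {z | ∃ x ∈ M, ∃ y, (∀ w ∈ M, v (B y w) ≤ 1) ∧ z = x + c • y}

theorem le_enl {v : Valuation k (WithZero (Multiplicative ℤ))} (B : LinearMap.BilinForm k V) (M : Set V)
    (c : k) : M ⊆ Enl v B M c := by
  intro x hx
  exact ⟨x, hx, 0, fun w _ => by rw [map_zero, LinearMap.zero_apply, map_zero]; exact zero_le',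
    by rw [smul_zero, add_zero]⟩

theorem enl_sub {v : Valuation k (WithZero (Multiplicative ℤ))} (B : LinearMap.BilinForm k V) {M : Set V}
    (hM : Sub v M) (c : k) : Sub v (Enl v B M c) where
  zero := le_enl B M c hM.zero
  add := by
    rintro _ ⟨x, hx, y, hy, rfl⟩ _ ⟨x', hx', y', hy', rfl⟩
    refine ⟨x + x', hM.add _ hx _ hx', y + y', fun w hw => ?_, ?_⟩
    · rw [map_add, LinearMap.add_apply]
      exact le_trans (v.map_add _ _) (max_le (hy w hw) (hy' w hw))
    · rw [smul_add]; abel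
  smul := by
    rintro a ha _ ⟨x, hx, y, hy, rfl⟩
    refine ⟨a • x, hM.smul a ha x hx, a • y, fun w hw => ?_, ?_⟩
    · rw [map_smul, LinearMap.smul_apply, smul_eq_mul, map_mul]
      exact mul_le_one' ha (hy w hw)
    · rw [smul_add, smul_comm]
  span := by
    intro x
    obtain ⟨a, ha, hx⟩ := hM.span x
    exact ⟨a, ha, le_enl B M c hx⟩

theorem enl_stable {v : Valuation k (WithZero (Multiplicative ℤ))} (B : LinearMap.BilinForm k V) {M : Set V}
    (T : V →ₗ[k] V) (hT : ∀ x y, B (T x) y = B x (T y)) (hTM : ∀ x ∈ M, T x ∈ M) (c : k) :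
    ∀ x ∈ Enl v B M c, T x ∈ Enl v B M c := by
  rintro _ ⟨x, hx, y, hy, rfl⟩
  refine ⟨T x, hTM x hx, T y, fun w hw => ?_, ?_⟩
  · rw [hT]; exact hy _ (hTM w hw)
  · rw [map_add, map_smul]

theorem enl_itg {v : Valuation k (WithZero (Multiplicative ℤ))} {π : k}
    (hπ : v π = WithZero.exp (-1 : ℤ)) (B : LinearMap.BilinForm k V) (hB : ∀ x y, B x y = B y x)
    {M : Set V} (hI : Itg v B M) {m j : ℕ} (hmj : m ≤ 2 * j)
    (hm : ∀ z, (∀ y ∈ M, v (B z y) ≤ 1) → π ^ m • z ∈ M) : Itg v B (Enl v B M (π ^ j)) := by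
  rintro _ ⟨x, hx, y, hy, rfl⟩ _ ⟨x', hx', y', hy', rfl⟩
  have e1 : B (x + π ^ j • y) (x' + π ^ j • y')
      = B x x' + π ^ j * B y' x + (π ^ j * B y x' + π ^ (2 * j - m) * B y' (π ^ m • y)) := by
    have e2 : π ^ (2 * j - m) * B y' (π ^ m • y) = π ^ j * (π ^ j * B y y') := by
      rw [map_smul, smul_eq_mul, ← mul_assoc, ← pow_add, Nat.sub_add_cancel hmj, hB y' y, two_mul,
        pow_add, mul_assoc]
    rw [e2]
    simp only [map_add, map_smul, LinearMap.add_apply, LinearMap.smul_apply, smul_eq_mul]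
    rw [hB x y']
    ring
  rw [e1]
  have hp : ∀ i : ℕ, ∀ t : k, v t ≤ 1 → v (π ^ i * t) ≤ 1 := by
    intro i t ht
    rw [map_mul]
    exact mul_le_one' (vpow_le hπ i) ht
  refine le_trans (v.map_add _ _) (max_le ?_ ?_)
  · exact le_trans (v.map_add _ _) (max_le (hI x hx x' hx') (hp _ _ (hy' x hx)))
  · exact le_trans (v.map_add _ _) (max_le (hp _ _ (hy x' hx')) (hp _ _ (hy' _ (hm y hy))))

end

/-- a maximal `T`-stable integral lattice contains `π` times its dual -/
theorem max : S_MAX := by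
  intro k _ v π hπ V _ _ _ B hB hnd T hT hex
  obtain ⟨M₀, hM₀⟩ := hex
  obtain ⟨M, -, hmax⟩ := zorn_subset_nonempty
    {M : Set V | Sub v M ∧ (∀ x ∈ M, T x ∈ M) ∧ Itg v B M} (by
      intro c hc hch hne
      obtain ⟨s₀, hs₀⟩ := hne
      have hpair : ∀ x ∈ ⋃₀ c, ∀ y ∈ ⋃₀ c, ∃ s ∈ c, x ∈ s ∧ y ∈ s := by
        rintro x ⟨s, hs, hxs⟩ y ⟨t, ht, hyt⟩
        rcases hch.total hs ht with h | h
        · exact ⟨t, ht, h hxs, hyt⟩
        · exact ⟨s, hs, hxs, h hyt⟩
      refine ⟨⋃₀ c, ⟨⟨?_, ?_, ?_, ?_⟩, ?_, ?_⟩, fun s hs => Set.subset_sUnion_of_mem hs⟩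
      · exact ⟨s₀, hs₀, (hc hs₀).1.zero⟩
      · intro x hx y hy
        obtain ⟨s, hs, hxs, hys⟩ := hpair x hx y hy
        exact ⟨s, hs, (hc hs).1.add x hxs y hys⟩
      · rintro a ha x ⟨s, hs, hxs⟩
        exact ⟨s, hs, (hc hs).1.smul a ha x hxs⟩
      · intro x
        obtain ⟨a, ha, hx⟩ := (hc hs₀).1.span x
        exact ⟨a, ha, s₀, hs₀, hx⟩
      · rintro x ⟨s, hs, hxs⟩
        exact ⟨s, hs, (hc hs).2.1 x hxs⟩
      · intro x hx y hy
        obtain ⟨s, hs, hxs, hys⟩ := hpair x hx y hy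
        exact (hc hs).2.2 x hxs y hys) M₀ hM₀
  obtain ⟨hM, hTM, hI⟩ := hmax.prop
  refine ⟨M, hM, hTM, hI, ?_⟩
  have hP := exists_pow_dual hπ B hnd hM
  have hstep : ∀ m : ℕ, (∀ z, (∀ y ∈ M, v (B z y) ≤ 1) → π ^ m • z ∈ M) →
      ∀ z, (∀ y ∈ M, v (B z y) ≤ 1) → π ^ ((m + 1) / 2) • z ∈ M := by
    intro m hm z hz
    have hN : Enl v B M (π ^ ((m + 1) / 2)) ⊆ M :=
      hmax.le_of_ge (y := Enl v B M (π ^ ((m + 1) / 2)))
        ⟨enl_sub B hM _, enl_stable B T hT hTM _, enl_itg hπ B hB hI (by omega) hm⟩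
        (le_enl B M _)
    exact hN ⟨0, hM.zero, z, hz, by rw [zero_add]⟩
  have h1 := Nat.find_spec hP
  have h2 : Nat.find hP ≤ (Nat.find hP + 1) / 2 := Nat.find_min' hP (hstep _ h1)
  intro z hz
  have h3 : Nat.find hP = 0 ∨ Nat.find hP = 1 := by omega
  have h4 := h1 z hz
  rcases h3 with h | h
  · rw [h, pow_zero, one_smul] at h4
    exact hM.smul π (vpi_le hπ) z h4
  · rwa [h, pow_one] at h4

end Pool.Agent.H71.AG458
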